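import Mathlib

/-! On a planar domain with Hölder boundary the `n`-th minimal integration error for `C^k`
functions can decay more slowly than `n^(-k/2)`. -/

namespace Pool.Agent.Results.MP_935800_an.Holder

open MeasureTheory Set Filter Topology

/-- the two coordinate directions of the plane -/
def dir : Fin 2 → ℝ × ℝ := ![(1, 0), (0, 1)]

/-- the class `F^k_2(D)` -/
def cls (k : ℕ) (D : Set (ℝ × ℝ)) : Set (ℝ × ℝ → ℝ) :=
  {f | ContDiffOn ℝ k f (interior D) ∧ (∀ p ∈ D, |f p| ≤ 1) ∧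
    ∀ m ≤ k, ∀ v : Fin m → Fin 2, ∀ p ∈ interior D,
      |iteratedFDeriv ℝ m f p (fun j => dir (v j))| ≤ 1}

/-- the `n`-th minimal worst-case error `e(n, F^k_2(D))`, computed in `[0, ∞]` -/
noncomputable def err (k n : ℕ) (D : Set (ℝ × ℝ)) : ENNReal :=
  ⨅ (x : Fin n → ℝ × ℝ) (_ : ∀ j, x j ∈ D) (φ : (Fin n → ℝ) → ℝ),
    ⨆ f ∈ cls k D, ENNReal.ofReal |(∫ p in D, f p) - φ (fun j => f (x j))|

/-- the region over `(0,1)` between the height `-β` and the graph of `g` -/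
def dom (β : ℝ) (g : ℝ → ℝ) : Set (ℝ × ℝ) :=
  {p | 0 < p.1 ∧ p.1 < 1 ∧ -β < p.2 ∧ p.2 < g p.1}

theorem dom_open (β : ℝ) {g : ℝ → ℝ} (hg : Continuous g) : IsOpen (dom β g) := by
  refine (isOpen_lt continuous_const continuous_fst).inter
    ((isOpen_lt continuous_fst continuous_const).inter
      ((isOpen_lt continuous_const continuous_snd).inter
        (isOpen_lt continuous_snd (hg.comp continuous_fst))))

theorem dom_conn {β : ℝ} (hβ : 0 < β) {g : ℝ → ℝ} (h0 : ∀ x, 0 ≤ g x) :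
    IsConnected (dom β g) := by
  have hL : Ioo (0 : ℝ) 1 ×ˢ Ioo (-β) 0 ⊆ dom β g := by
    rintro ⟨x, y⟩ ⟨⟨h1, h2⟩, h3, h4⟩
    exact ⟨h1, h2, h3, lt_of_lt_of_le h4 (h0 _)⟩
  have hm : ∀ x : ℝ, 0 < x → x < 1 → (x, -β / 2) ∈ Ioo (0 : ℝ) 1 ×ˢ Ioo (-β) 0 :=
    fun x h1 h2 => ⟨⟨h1, h2⟩, by simp only; linarith, by simp only; linarith⟩
  refine ⟨⟨_, hL (hm (1 / 2) (by norm_num) (by norm_num))⟩, ?_⟩
  refine isPreconnected_of_forall ((1 / 2 : ℝ), -β / 2) ?_
  rintro ⟨x, y⟩ ⟨h1, h2, h3, h4⟩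
  refine ⟨(Ioo (0 : ℝ) 1 ×ˢ Ioo (-β) 0) ∪ ({x} ×ˢ Ioo (-β) (g x)), ?_,
    Or.inl (hm _ (by norm_num) (by norm_num)), Or.inr ⟨rfl, h3, h4⟩, ?_⟩
  · refine union_subset hL ?_
    rintro ⟨u, w⟩ ⟨hu, h5, h6⟩
    obtain rfl : u = x := hu
    exact ⟨h1, h2, h5, h6⟩
  · refine IsPreconnected.union (x, -β / 2) (hm x h1 h2) ⟨rfl, ?_, ?_⟩
      (isPreconnected_Ioo.prod isPreconnected_Ioo)
      (isPreconnected_singleton.prod isPreconnected_Ioo)
    · simp only; linarith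
    · have := h0 x
      simp only; linarith

theorem dom_bdd (β : ℝ) {g : ℝ → ℝ} (h1 : ∀ x ∈ Ioo (0 : ℝ) 1, g x ≤ 1) :
    Bornology.IsBounded (dom β g) := by
  refine ((Metric.isBounded_Icc (0 : ℝ) 1).prod (Metric.isBounded_Icc (-β) 1)).subset ?_
  rintro ⟨x, y⟩ ⟨a1, a2, a3, a4⟩
  exact ⟨⟨a1.le, a2.le⟩, a3.le, (a4.trans_le (h1 x ⟨a1, a2⟩)).le⟩

theorem graph_null {g : ℝ → ℝ} (hg : Continuous g) :
    volume {p : ℝ × ℝ | p.2 = g p.1} = 0 := by
  refine Measure.measure_prod_null_of_ae_null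
    (isClosed_eq continuous_snd (hg.comp continuous_fst)).measurableSet
    (Eventually.of_forall fun x => ?_)
  have : Prod.mk x ⁻¹' {p : ℝ × ℝ | p.2 = g p.1} = {g x} := by ext y; simp
  simp [this]

theorem vert_null (c : ℝ) : volume {p : ℝ × ℝ | p.1 = c} = 0 := by
  have : {p : ℝ × ℝ | p.1 = c} = ({c} : Set ℝ) ×ˢ (univ : Set ℝ) := by ext p; simp
  rw [this, Measure.volume_eq_prod, Measure.prod_prod]; simp

theorem dom_frontier (β : ℝ) {g : ℝ → ℝ} (hg : Continuous g) :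
    volume (frontier (dom β g)) = 0 := by
  have hK : IsClosed {p : ℝ × ℝ | 0 ≤ p.1 ∧ p.1 ≤ 1 ∧ -β ≤ p.2 ∧ p.2 ≤ g p.1} :=
    (isClosed_le continuous_const continuous_fst).inter
      ((isClosed_le continuous_fst continuous_const).inter
        ((isClosed_le continuous_const continuous_snd).inter
          (isClosed_le continuous_snd (hg.comp continuous_fst))))
  have hc : closure (dom β g) ⊆ {p : ℝ × ℝ | 0 ≤ p.1 ∧ p.1 ≤ 1 ∧ -β ≤ p.2 ∧ p.2 ≤ g p.1} :=
    closure_minimal (fun p hp => ⟨hp.1.le, hp.2.1.le, hp.2.2.1.le, hp.2.2.2.le⟩) hK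
  refine measure_mono_null (t := ({p : ℝ × ℝ | p.1 = 0} ∪ {p : ℝ × ℝ | p.1 = 1}) ∪
    ({p : ℝ × ℝ | p.2 = (fun _ => -β) p.1} ∪ {p : ℝ × ℝ | p.2 = g p.1})) ?_ ?_
  · intro p hp
    rw [(dom_open β hg).frontier_eq] at hp
    obtain ⟨b1, b2, b3, b4⟩ := hc hp.1
    by_contra hn
    simp only [mem_union, mem_ofPred_eq, not_or] at hn
    exact hp.2 ⟨lt_of_le_of_ne b1 (Ne.symm hn.1.1), lt_of_le_of_ne b2 hn.1.2,
      lt_of_le_of_ne b3 (Ne.symm hn.2.1), lt_of_le_of_ne b4 hn.2.2⟩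
  · exact measure_union_null (measure_union_null (vert_null 0) (vert_null 1))
      (measure_union_null (graph_null continuous_const) (graph_null hg))

theorem dom_vol {g : ℝ → ℝ} (hg : Continuous g) (h0 : ∀ x, 0 ≤ g x) {β : ℝ} (hβ : 0 < β)
    (he : β = 1 - ∫ x in Ioo (0 : ℝ) 1, g x) : volume (dom β g) = 1 := by
  have hi : IntegrableOn g (Ioo (0 : ℝ) 1) volume :=
    (hg.continuousOn.integrableOn_Icc (a := 0) (b := 1)).mono_set Ioo_subset_Icc_self
  have hc : IntegrableOn (fun _ : ℝ => -β) (Ioo (0 : ℝ) 1) volume :=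
    integrableOn_const (by simp)
  have e : dom β g = regionBetween (fun _ => -β) g (Ioo 0 1) := by
    ext p; simp [dom, regionBetween, and_assoc]
  rw [e, Measure.volume_eq_prod, volume_regionBetween_eq_integral hc hi measurableSet_Ioo
    (fun x _ => by have := h0 x; linarith)]
  have : ∫ y in Ioo (0 : ℝ) 1, (g - fun _ : ℝ => -β : ℝ → ℝ) y = (1 : ℝ) := by
    simp only [Pi.sub_apply]
    rw [integral_sub hi hc]
    simp only [integral_const, MeasurableSet.univ, measureReal_restrict_apply, univ_inter,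
      Real.volume_real_Ioo, smul_eq_mul]
    rw [he]; norm_num
  rw [this]; simp

theorem err_le_one (k n : ℕ) {D : Set (ℝ × ℝ)} (hne : D.Nonempty) (hv : volume D = 1) :
    err k n D ≤ 1 := by
  obtain ⟨p, hp⟩ := hne
  refine iInf_le_of_le (fun _ => p) (iInf_le_of_le (fun _ => hp) (iInf_le_of_le (fun _ => 0) ?_))
  refine iSup₂_le fun f hf => ?_
  have := norm_setIntegral_le_of_norm_le_const (μ := volume) (s := D) (f := f) (C := 1)
    (by simp [hv]) (fun x hx => hf.2.1 x hx)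
  simp only [Measure.real, hv, ENNReal.toReal_one, mul_one, Real.norm_eq_abs] at this
  simpa using this

theorem neg_mem {k : ℕ} {D : Set (ℝ × ℝ)} {f : ℝ × ℝ → ℝ} (hf : f ∈ cls k D) :
    -f ∈ cls k D := by
  refine ⟨hf.1.neg, fun p hp => by simpa using hf.2.1 p hp, fun m hm v p hp => ?_⟩
  rw [iteratedFDeriv_neg_apply]
  simpa using hf.2.2 m hm v p hp

theorem le_err {k n : ℕ} {D : Set (ℝ × ℝ)} {r : ℝ}
    (h : ∀ x : Fin n → ℝ × ℝ, ∃ f ∈ cls k D, (∀ j, f (x j) = 0) ∧ r ≤ ∫ p in D, f p) :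
    ENNReal.ofReal r ≤ err k n D := by
  refine le_iInf fun x => le_iInf fun _ => le_iInf fun φ => ?_
  obtain ⟨f, hf, h0, hr⟩ := h x
  have e1 : (fun j => f (x j)) = fun _ => 0 := funext h0
  have e2 : (fun j => (-f) (x j)) = fun _ => 0 := funext fun j => by simp [h0 j]
  rcases le_total (φ fun _ => 0) 0 with hφ | hφ
  · refine le_iSup₂_of_le f hf (ENNReal.ofReal_le_ofReal ?_)
    rw [e1]
    exact le_trans (by linarith) (le_abs_self _)
  · refine le_iSup₂_of_le (-f) (neg_mem hf) (ENNReal.ofReal_le_ofReal ?_)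
    rw [e2]
    simp only [Pi.neg_apply, integral_neg]
    exact le_trans (by linarith) (neg_le_abs _)


/-- a bump equal to `1` on `[1/2, 1]` and vanishing below `1/4` -/
noncomputable def bump : ContDiffBump (3 / 4 : ℝ) := ⟨1 / 4, 1 / 2, by norm_num, by norm_num⟩

theorem bump_one {t : ℝ} (h1 : 1 / 2 ≤ t) (h2 : t ≤ 1) : bump t = 1 := by
  apply bump.one_of_mem_closedBall
  rw [Metric.mem_closedBall, Real.dist_eq, abs_le]
  change -(1 / 4 : ℝ) ≤ _ ∧ _ ≤ (1 / 4 : ℝ)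
  constructor <;> linarith

theorem bump_zero {t : ℝ} (h : t ≤ 0) : bump t = 0 := by
  apply bump.zero_of_le_dist
  rw [Real.dist_eq, abs_of_neg (by linarith)]
  change (1 / 2 : ℝ) ≤ _
  linarith

theorem bump_bound (k : ℕ) : ∃ M : ℝ, 1 ≤ M ∧ ∀ m ≤ k, ∀ t : ℝ,
    ‖iteratedFDeriv ℝ m (bump : ℝ → ℝ) t‖ ≤ M := by
  have h : ∀ m : ℕ, ∃ C : ℝ, ∀ t : ℝ, ‖iteratedFDeriv ℝ m (bump : ℝ → ℝ) t‖ ≤ C := fun m =>
    ((bump.contDiff (n := m)).continuous_iteratedFDeriv le_rfl).bounded_above_of_compact_support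
      (bump.hasCompactSupport.iteratedFDeriv m)
  choose C hC using h
  have h0 : ∀ m, 0 ≤ C m := fun m => (norm_nonneg _).trans (hC m 0)
  refine ⟨1 + ∑ m ∈ Finset.range (k + 1), C m, ?_, fun m hm t => ?_⟩
  · have := Finset.sum_nonneg (s := Finset.range (k + 1)) fun m _ => h0 m
    linarith
  · have := Finset.single_le_sum (s := Finset.range (k + 1)) (fun m _ => h0 m)
      (Finset.mem_range.2 (Nat.lt_succ_of_le hm))
    linarith [hC m t]

/-- the rescaled height -/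
noncomputable def Lh (h : ℝ) : ℝ × ℝ →L[ℝ] ℝ := h⁻¹ • ContinuousLinearMap.snd ℝ ℝ ℝ

/-- the rescaled bump in the vertical variable -/
noncomputable def G (k : ℕ) (M h : ℝ) : ℝ × ℝ → ℝ :=
  (M⁻¹ * h ^ k) • ((bump : ℝ → ℝ) ∘ (Lh h))

theorem G_apply (k : ℕ) (M h : ℝ) (p : ℝ × ℝ) :
    G k M h p = M⁻¹ * h ^ k * bump (h⁻¹ * p.2) := rfl

theorem G_smooth (k : ℕ) (M h : ℝ) : ContDiff ℝ k (G k M h) :=
  have hs : ContDiff ℝ k (bump : ℝ → ℝ) := bump.contDiff
  (hs.comp (Lh h).contDiff).const_smul (M⁻¹ * h ^ k)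

theorem G_deriv {k : ℕ} {M h : ℝ} (hM : 1 ≤ M) (h0 : 0 < h) (h1 : h ≤ 1)
    (hb : ∀ m ≤ k, ∀ t : ℝ, ‖iteratedFDeriv ℝ m (bump : ℝ → ℝ) t‖ ≤ M)
    {m : ℕ} (hm : m ≤ k) (v : Fin m → Fin 2) (p : ℝ × ℝ) :
    |iteratedFDeriv ℝ m (G k M h) p (fun j => dir (v j))| ≤ 1 := by
  have hs : ContDiff ℝ m (bump : ℝ → ℝ) := bump.contDiff
  rw [G, iteratedFDeriv_const_smul_apply
    (hs.comp (Lh h).contDiff).contDiffAt,
    ContinuousLinearMap.iteratedFDeriv_comp_right _ hs _ le_rfl]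
  simp only [smul_apply,
    ContinuousMultilinearMap.compContinuousLinearMap_apply, smul_eq_mul]
  have e1 := (iteratedFDeriv ℝ m (bump : ℝ → ℝ)
    ((Lh h) p)).le_opNorm
      (fun j => (Lh h) (dir (v j)))
  have e2 : ∏ j, ‖(Lh h) (dir (v j))‖ ≤ h⁻¹ ^ m := by
    refine le_trans (Finset.prod_le_prod (g := fun _ => h⁻¹) (fun _ _ => norm_nonneg _)
      fun j _ => ?_) (by simp)
    have : ∀ i : Fin 2, ‖(Lh h) (dir i)‖ ≤ h⁻¹ := by
      intro i
      fin_cases i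
      · simp [dir, Lh, h0.le]
      · simp [dir, Lh, abs_of_pos h0]
    exact this _
  have e3 := hb m hm ((Lh h) p)
  have hM0 : 0 < M := by linarith
  rw [abs_mul, abs_of_pos (by positivity : 0 < M⁻¹ * h ^ k), ← Real.norm_eq_abs]
  have e4 := e1.trans (mul_le_mul e3 e2 (Finset.prod_nonneg fun _ _ => norm_nonneg _) hM0.le)
  refine (mul_le_mul_of_nonneg_left e4 (by positivity)).trans ?_
  have e5 : h ^ k ≤ h ^ m := pow_le_pow_of_le_one h0.le h1 hm
  have e6 : M⁻¹ * h ^ k * (M * h⁻¹ ^ m) = h ^ k / h ^ m := by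
    rw [inv_pow]; field_simp
  rw [e6, div_le_one (by positivity)]
  exact e5

/-- the cusp positions -/
noncomputable def a (s : ℝ) (i : ℕ) : ℝ := ((i : ℝ) + 1) ^ (-s)

theorem a_pos (s : ℝ) (i : ℕ) : 0 < a s i := by unfold a; positivity

theorem a_zero (s : ℝ) : a s 0 = 1 := by simp [a]

theorem a_anti {s : ℝ} (hs : 0 < s) : Antitone (a s) := fun i j hij =>
  Real.rpow_le_rpow_of_nonpos (by positivity) (by simpa using hij) (by linarith)

theorem a_gap {s : ℝ} (hs : 0 < s) (hs1 : s ≤ 1) {n i : ℕ} (hi : i < 2 * n) :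
    s * (3 * (n : ℝ)) ^ (-(1 + s)) ≤ a s i - a s (i + 1) := by
  have hi' : (i : ℝ) + 2 ≤ 3 * n := by
    have : i + 2 ≤ 3 * n := by omega
    exact_mod_cast this
  have hi0 : (0 : ℝ) ≤ i := Nat.cast_nonneg i
  have hN : (0 : ℝ) < 3 * n := by linarith
  have h1 := rpow_one_add_le_one_add_mul_self (s := -(1 / ((i : ℝ) + 2)))
    (by rw [neg_le_neg_iff, div_le_one (by linarith)]; linarith) hs.le hs1
  have h2 : a s (i + 1) = a s i * (1 + -(1 / ((i : ℝ) + 2))) ^ s := by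
    have : (1 + -(1 / ((i : ℝ) + 2))) = ((i : ℝ) + 1) / (i + 2) := by field_simp; ring
    rw [this, Real.div_rpow (by linarith) (by linarith), a, a, Real.rpow_neg (by positivity),
      Real.rpow_neg (by positivity)]
    have h3 : (0 : ℝ) < ((i : ℝ) + 1) ^ s := by positivity
    have h4 : ((i + 1 : ℕ) : ℝ) + 1 = i + 2 := by push_cast; ring
    rw [h4]
    field_simp
  have h5 : (3 * (n : ℝ)) ^ (-s) ≤ a s i :=
    Real.rpow_le_rpow_of_nonpos (by positivity) (by linarith) (by linarith)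
  have h6 : (3 * (n : ℝ)) ^ (-(1 + s)) = (3 * (n : ℝ)) ^ (-s) * (1 / (3 * n)) := by
    rw [show -(1 + s) = -s + -1 by ring, Real.rpow_add hN, Real.rpow_neg_one, one_div]
  have h7 : 1 / (3 * (n : ℝ)) ≤ 1 / ((i : ℝ) + 2) := one_div_le_one_div_of_le (by linarith) hi'
  have h8 := mul_le_mul_of_nonneg_left h1 (a_pos s i).le
  have h9 : (3 * (n : ℝ)) ^ (-s) * (1 / (3 * n)) ≤ a s i * (1 / ((i : ℝ) + 2)) :=
    mul_le_mul h5 h7 (by positivity) (a_pos s i).le
  rw [h6, h2]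
  nlinarith [mul_le_mul_of_nonneg_left h9 hs.le]

/-- the set of cusps -/
def A (s : ℝ) : Set ℝ := insert 0 (range (a s))

/-- the boundary function -/
noncomputable def gg (s α : ℝ) (x : ℝ) : ℝ := Metric.infDist x (A s) ^ α

theorem gg_nonneg (s α x : ℝ) : 0 ≤ gg s α x := Real.rpow_nonneg Metric.infDist_nonneg _

theorem rpow_sub_le {α u w : ℝ} (h0 : 0 ≤ α) (h1 : α ≤ 1) (hw : 0 ≤ w) (hu : 0 ≤ u) :
    u ^ α - w ^ α ≤ |u - w| ^ α := by
  have h2 : u ^ α ≤ (w + |u - w|) ^ α :=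
    Real.rpow_le_rpow hu (by linarith [le_abs_self (u - w)]) h0
  have h3 := Real.rpow_add_le_add_rpow hw (abs_nonneg (u - w)) h0 h1
  linarith

theorem gg_holder (s : ℝ) {α : ℝ} (h0 : 0 ≤ α) (h1 : α ≤ 1) (x y : ℝ) :
    |gg s α x - gg s α y| ≤ |x - y| ^ α := by
  have hd : |Metric.infDist x (A s) - Metric.infDist y (A s)| ≤ |x - y| := by
    have := (Metric.lipschitz_infDist_pt (A s)).dist_le_mul x y
    simpa [Real.dist_eq] using this
  have hd' := Real.rpow_le_rpow (abs_nonneg _) hd h0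
  rw [abs_le]
  constructor
  · have := rpow_sub_le h0 h1 (Metric.infDist_nonneg (x := x) (s := A s))
      (Metric.infDist_nonneg (x := y) (s := A s))
    rw [abs_sub_comm] at this
    unfold gg; linarith
  · have := rpow_sub_le h0 h1 (Metric.infDist_nonneg (x := y) (s := A s))
      (Metric.infDist_nonneg (x := x) (s := A s))
    unfold gg; linarith

theorem gg_cont (s : ℝ) {α : ℝ} (h0 : 0 ≤ α) : Continuous (gg s α) :=
  (Metric.continuous_infDist_pt _).rpow_const fun _ => Or.inr h0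

theorem gg_le (s : ℝ) {α : ℝ} (h0 : 0 ≤ α) {x : ℝ} (hx : x ∈ Ioo (0 : ℝ) 1) :
    gg s α x ≤ (1 / 2) ^ α := by
  refine Real.rpow_le_rpow Metric.infDist_nonneg ?_ h0
  have h1 := Metric.infDist_le_dist_of_mem (x := x) (s := A s) (y := 0) (Or.inl rfl)
  have h2 := Metric.infDist_le_dist_of_mem (x := x) (s := A s) (y := 1) (Or.inr ⟨0, a_zero s⟩)
  rw [Real.dist_eq, sub_zero, abs_of_pos hx.1] at h1
  rw [Real.dist_eq, abs_of_neg (by linarith [hx.2])] at h2
  linarith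


theorem strip_uniq {s : ℝ} (hs : 0 < s) {i j : ℕ} {t : ℝ} (hi : t ∈ Ioo (a s (i + 1)) (a s i))
    (hj : t ∈ Ioo (a s (j + 1)) (a s j)) : i = j := by
  by_contra hne
  rcases lt_or_gt_of_ne hne with h | h
  · have := a_anti hs (Nat.succ_le_of_lt h)
    linarith [hi.1, hj.2]
  · have := a_anti hs (Nat.succ_le_of_lt h)
    linarith [hj.1, hi.2]

theorem free_strips {s : ℝ} (hs : 0 < s) {n : ℕ} (x : Fin n → ℝ × ℝ) :
    ∃ T : Finset ℕ, n ≤ T.card ∧ (∀ i ∈ T, i < 2 * n) ∧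
      ∀ i ∈ T, ∀ j, (x j).1 ∉ Ioo (a s (i + 1)) (a s i) := by
  classical
  let P : ℕ → Prop := fun i => ∃ j, (x j).1 ∈ Ioo (a s (i + 1)) (a s i)
  refine ⟨(Finset.range (2 * n)).filter fun i => ¬ P i, ?_, fun i hi => ?_, fun i hi j hj => ?_⟩
  · have h1 := Finset.card_filter_add_card_filter_not (s := Finset.range (2 * n)) P
    have h2 : ((Finset.range (2 * n)).filter P).card ≤ n := by
      have hsub : (Finset.range (2 * n)).filter P ⊆ Finset.univ.biUnion fun j : Fin n =>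
          (Finset.range (2 * n)).filter fun i => (x j).1 ∈ Ioo (a s (i + 1)) (a s i) := by
        intro i hi
        obtain ⟨hi1, j, hj⟩ := Finset.mem_filter.1 hi
        exact Finset.mem_biUnion.2 ⟨j, Finset.mem_univ _, Finset.mem_filter.2 ⟨hi1, hj⟩⟩
      refine (Finset.card_le_card hsub).trans
        ((Finset.card_biUnion_le_card_mul _ _ 1 fun j _ => ?_).trans (by simp))
      exact Finset.card_le_one.2 fun i hi i' hi' =>
        strip_uniq hs (Finset.mem_filter.1 hi).2 (Finset.mem_filter.1 hi').2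
    rw [Finset.card_range] at h1
    omega
  · exact Finset.mem_range.1 (Finset.mem_filter.1 hi).1
  · exact (Finset.mem_filter.1 hi).2 ⟨j, hj⟩

theorem far {s l t : ℝ} (hs : 0 < s) (_hl : 0 < l) {i : ℕ} (hg : l ≤ a s i - a s (i + 1))
    (ht : t ∈ Ioo (a s (i + 1) + l / 4) (a s (i + 1) + 3 * l / 4)) :
    l / 4 ≤ Metric.infDist t (A s) := by
  refine (Metric.le_infDist (s := A s) ⟨0, Or.inl rfl⟩).2 ?_
  rintro y (rfl | ⟨j, rfl⟩)
  · rw [Real.dist_eq]
    exact le_trans (by linarith [ht.1, a_pos s (i + 1)]) (le_abs_self _)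
  · rw [Real.dist_eq]
    rcases le_or_gt j i with h | h
    · have := a_anti hs h
      exact le_trans (by linarith [ht.2]) (neg_le_abs _)
    · have := a_anti hs (Nat.succ_le_of_lt h)
      exact le_trans (by linarith [ht.1]) (le_abs_self _)

theorem key {k n : ℕ} {s α β M l : ℝ} (hs : 0 < s) (hα : 0 < α) (hβ : 0 < β) (hM : 1 ≤ M)
    (hb : ∀ m ≤ k, ∀ t : ℝ, ‖iteratedFDeriv ℝ m (bump : ℝ → ℝ) t‖ ≤ M) (hl : 0 < l)
    (hl1 : l ≤ 1) (hgap : ∀ i < 2 * n, l ≤ a s i - a s (i + 1))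
    (hv : volume (dom β (gg s α)) = 1) (x : Fin n → ℝ × ℝ) :
    ∃ f ∈ cls k (dom β (gg s α)), (∀ j, f (x j) = 0) ∧
      M⁻¹ * ((l / 4) ^ α) ^ k * (n * (l / 2 * ((l / 4) ^ α / 2))) ≤
        ∫ p in dom β (gg s α), f p := by
  obtain ⟨T, hT, hT2, hTx⟩ := free_strips hs x
  set h : ℝ := (l / 4) ^ α with hh
  have h0 : 0 < h := by positivity
  have h1 : h ≤ 1 := Real.rpow_le_one (by positivity) (by linarith) hα.le
  have hM0 : 0 < M := by linarith
  have hc0 : 0 < M⁻¹ * h ^ k := by positivity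
  have hc1 : M⁻¹ * h ^ k ≤ 1 :=
    mul_le_one₀ (inv_le_one_of_one_le₀ hM) (by positivity) (pow_le_one₀ h0.le h1)
  have hO := dom_open β (gg_cont s hα.le)
  set D := dom β (gg s α) with hD
  let U : Set ℝ := ⋃ i ∈ T, Ioo (a s (i + 1)) (a s i)
  have hU : IsOpen U := isOpen_biUnion fun _ _ => isOpen_Ioo
  let f : ℝ × ℝ → ℝ := (Prod.fst ⁻¹' U).indicator (G k M h)
  have hloc : ∀ p ∈ D, f =ᶠ[𝓝 p] G k M h ∨ f =ᶠ[𝓝 p] fun _ => 0 := by
    intro p hp
    by_cases hpU : p.1 ∈ U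
    · left
      filter_upwards [(hU.preimage continuous_fst).mem_nhds hpU] with q hq
      exact indicator_of_mem hq _
    right
    rcases lt_or_ge p.2 0 with hy | hy
    · filter_upwards [(isOpen_lt continuous_snd continuous_const).mem_nhds hy] with q hq
      have hq' : q.2 < 0 := hq
      have : G k M h q = 0 := by
        rw [G_apply, bump_zero (mul_nonpos_of_nonneg_of_nonpos (by positivity) hq'.le), mul_zero]
      by_cases hq2 : q ∈ Prod.fst ⁻¹' U
      · exact (indicator_of_mem hq2 _).trans this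
      · exact indicator_of_notMem hq2 _
    · have hA : p.1 ∉ A s := by
        intro hA
        have : gg s α p.1 = 0 := by
          rw [gg, Metric.infDist_zero_of_mem hA, Real.zero_rpow hα.ne']
        linarith [hp.2.2.2]
      have hC : IsClosed (⋃ i ∈ T, Icc (a s (i + 1)) (a s i)) :=
        isClosed_biUnion_finset fun _ _ => isClosed_Icc
      have hpC : p.1 ∉ ⋃ i ∈ T, Icc (a s (i + 1)) (a s i) := by
        intro hpC
        obtain ⟨i, hi, b1, b2⟩ := mem_iUnion₂.1 hpC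
        refine hpU (mem_iUnion₂.2 ⟨i, hi, lt_of_le_of_ne b1 ?_, lt_of_le_of_ne b2 ?_⟩)
        · exact fun e => hA (Or.inr ⟨_, e⟩)
        · exact fun e => hA (Or.inr ⟨_, e.symm⟩)
      filter_upwards [(hC.isOpen_compl.preimage continuous_fst).mem_nhds hpC] with q hq
      refine indicator_of_notMem (fun hq2 => hq ?_) _
      obtain ⟨i, hi, b⟩ := mem_iUnion₂.1 hq2
      exact mem_iUnion₂.2 ⟨i, hi, Ioo_subset_Icc_self b⟩
  have hG0 : ∀ p, 0 ≤ G k M h p := fun p => by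
    rw [G_apply]; exact mul_nonneg hc0.le bump.nonneg
  have hG1 : ∀ p, G k M h p ≤ 1 := fun p => by
    rw [G_apply]; exact mul_le_one₀ hc1 bump.nonneg bump.le_one
  have hf0 : ∀ p, 0 ≤ f p := fun p => indicator_nonneg (fun q _ => hG0 q) p
  have hf1 : ∀ p, f p ≤ 1 := fun p => (indicator_le_self' (fun q _ => hG0 q) p).trans (hG1 p)
  have hsm : ContDiffOn ℝ k f D := by
    intro p hp
    rcases hloc p hp with e | e
    · exact ((G_smooth k M h).contDiffAt.congr_of_eventuallyEq e).contDiffWithinAt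
    · exact (contDiffAt_const.congr_of_eventuallyEq e).contDiffWithinAt
  have hint : IntegrableOn f D volume := by
    refine Measure.integrableOn_of_bounded (M := 1) (by simp [hv]) ?_
      (Eventually.of_forall fun p => ?_)
    · exact ((G_smooth k M h).continuous.measurable.indicator
        (hU.preimage continuous_fst).measurableSet).aestronglyMeasurable
    · rw [Real.norm_eq_abs, abs_of_nonneg (hf0 p)]; exact hf1 p
  refine ⟨f, ⟨by rwa [hO.interior_eq], fun p _ => by rw [abs_of_nonneg (hf0 p)]; exact hf1 p,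
    fun m hm v p hp => ?_⟩, fun j => ?_, ?_⟩
  · rw [hO.interior_eq] at hp
    rcases hloc p hp with e | e
    · rw [(e.iteratedFDeriv ℝ m).eq_of_nhds]
      exact G_deriv hM h0 h1 hb hm v p
    · rw [(e.iteratedFDeriv ℝ m).eq_of_nhds, iteratedFDeriv_fun_zero]
      simp
  · refine indicator_of_notMem (fun hj => ?_) _
    obtain ⟨i, hi, b⟩ := mem_iUnion₂.1 hj
    exact hTx i hi j b
  · let R : ℕ → Set (ℝ × ℝ) := fun i =>
      Ioo (a s (i + 1) + l / 4) (a s (i + 1) + 3 * l / 4) ×ˢ Ioo (h / 2) h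
    have hR1 : ∀ i ∈ T, ∀ p ∈ R i, p.1 ∈ Ioo (a s (i + 1)) (a s i) := fun i hi p hp =>
      ⟨by linarith [hp.1.1], by linarith [hp.1.2, hgap i (hT2 i hi)]⟩
    have hRm : ∀ i, MeasurableSet (R i) := fun i => measurableSet_Ioo.prod measurableSet_Ioo
    have hBD : (⋃ i ∈ T, R i) ⊆ D := by
      intro p hp
      obtain ⟨i, hi, b⟩ := mem_iUnion₂.1 hp
      have c := hR1 i hi p b
      have c1 : a s i ≤ 1 := (a_anti hs (Nat.zero_le i)).trans (a_zero s).le
      refine ⟨(a_pos s _).trans c.1, c.2.trans_le c1, by linarith [b.2.1], b.2.2.trans_le ?_⟩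
      exact Real.rpow_le_rpow (by positivity) (far hs hl (hgap i (hT2 i hi)) b.1) hα.le
    have hvol : volume.real (⋃ i ∈ T, R i) = T.card * (l / 2 * (h / 2)) := by
      have hfin : ∀ i ∈ T, volume (R i) ≠ ⊤ := by
        intro i _
        rw [Measure.volume_eq_prod, Measure.prod_prod]
        exact ENNReal.mul_ne_top (by simp) (by simp)
      have hdis : PairwiseDisjoint (↑T) R := by
        intro i hi j hj hij
        exact disjoint_left.2 fun p hp hq => hij (strip_uniq hs (hR1 i hi p hp) (hR1 j hj p hq))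
      rw [measureReal_biUnion_finset hdis (fun i _ => hRm i) hfin,
        Finset.sum_congr rfl (g := fun _ => l / 2 * (h / 2)), Finset.sum_const, nsmul_eq_mul]
      intro i _
      rw [Measure.volume_eq_prod, measureReal_prod_prod, Real.volume_real_Ioo,
        Real.volume_real_Ioo, max_eq_left (by linarith), max_eq_left (by linarith)]
      ring
    have hle : ∀ p ∈ ⋃ i ∈ T, R i, M⁻¹ * h ^ k ≤ f p := by
      intro p hp
      obtain ⟨i, hi, b⟩ := mem_iUnion₂.1 hp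
      have hpU : p ∈ Prod.fst ⁻¹' U := mem_iUnion₂.2 ⟨i, hi, hR1 i hi p b⟩
      have e : f p = G k M h p := indicator_of_mem hpU _
      rw [e, G_apply, bump_one, mul_one]
      · rw [inv_mul_eq_div, le_div_iff₀ h0]; linarith [b.2.1]
      · rw [inv_mul_eq_div, div_le_one h0]; exact b.2.2.le
    have i1 := setIntegral_ge_of_const_le_real (Finset.measurableSet_biUnion T fun i _ => hRm i)
      (ne_top_of_le_ne_top (by simp [hv]) (measure_mono hBD)) hle (hint.mono_set hBD)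
    have i2 := setIntegral_mono_set hint (Eventually.of_forall hf0) hBD.eventuallyLE
    refine le_trans ?_ (i1.trans i2)
    rw [hvol]
    have : (n : ℝ) ≤ T.card := by exact_mod_cast hT
    gcongr


theorem result (k : ℕ) (α : ℝ) (h0 : 0 < α) (h1 : α < k / (2 * (k + 1))) :
    ∃ (g : ℝ → ℝ) (β : ℝ), 0 < β ∧ (∀ x, 0 ≤ g x) ∧ (∀ x y, |g x - g y| ≤ |x - y| ^ α) ∧
      IsOpen (dom β g) ∧ IsConnected (dom β g) ∧ Bornology.IsBounded (dom β g) ∧
      volume (frontier (dom β g)) = 0 ∧ volume (dom β g) = 1 ∧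
      (∀ n, err k n (dom β g) ≤ 1) ∧
      Tendsto (fun n : ℕ => err k n (dom β g) * (n : ENNReal) ^ ((k : ℝ) / 2)) atTop (𝓝 ⊤) := by
  have hk : (0 : ℝ) ≤ k := Nat.cast_nonneg k
  rw [lt_div_iff₀ (by positivity)] at h1
  have hα1 : α ≤ 1 := by nlinarith
  set γ : ℝ := α * (k + 1) with hγ
  have hγ0 : 0 < γ := by positivity
  set δ : ℝ := k / 2 - γ with hδ
  have hδ0 : 0 < δ := by rw [hδ, hγ]; linarith
  set s : ℝ := min 1 (δ / (2 * (1 + γ))) with hsd
  have hs : 0 < s := lt_min one_pos (by positivity)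
  have hs1 : s ≤ 1 := min_le_left _ _
  have hs2 : s * (1 + γ) ≤ δ / 2 := by
    have : s ≤ δ / (2 * (1 + γ)) := min_le_right _ _
    rw [le_div_iff₀ (by positivity)] at this
    linarith
  have hc := gg_cont s h0.le
  have hhalf : (1 / 2 : ℝ) ^ α < 1 := Real.rpow_lt_one (by norm_num) (by norm_num) h0
  set β : ℝ := 1 - ∫ x in Ioo (0 : ℝ) 1, gg s α x with hβd
  have hβ : 0 < β := by
    have := norm_setIntegral_le_of_norm_le_const (μ := volume) (s := Ioo (0 : ℝ) 1)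
      (f := gg s α) (C := (1 / 2) ^ α) (by simp) (fun x hx => by
        rw [Real.norm_eq_abs, abs_of_nonneg (gg_nonneg s α x)]; exact gg_le s h0.le hx)
    simp only [Real.volume_real_Ioo, sub_zero, Real.norm_eq_abs] at this
    rw [max_eq_left zero_le_one, mul_one] at this
    linarith [le_abs_self (∫ x in Ioo (0 : ℝ) 1, gg s α x)]
  have hv := dom_vol hc (gg_nonneg s α) hβ hβd
  have hconn := dom_conn hβ (gg_nonneg s α)
  refine ⟨gg s α, β, hβ, gg_nonneg s α, gg_holder s h0.le hα1, dom_open β hc, hconn,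
    dom_bdd β (fun x hx => (gg_le s h0.le hx).trans hhalf.le), dom_frontier β hc, hv,
    fun n => err_le_one k n hconn.1 hv, ?_⟩
  obtain ⟨M, hM, hb⟩ := bump_bound k
  have hM0 : 0 < M := by linarith
  set b : ℝ := s * 3 ^ (-(1 + s)) / 4 with hb0
  have hbp : 0 < b := by positivity
  have hlim : Tendsto (fun n : ℕ => ENNReal.ofReal (M⁻¹ * b ^ (γ + 1) * (n : ℝ) ^ (δ / 2)))
      atTop (𝓝 ⊤) :=
    ENNReal.tendsto_ofReal_atTop.comp (((tendsto_rpow_atTop (by positivity)).comp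
      tendsto_natCast_atTop_atTop).const_mul_atTop (by positivity))
  refine tendsto_nhds_top_mono hlim ?_
  filter_upwards [eventually_ge_atTop 1] with n hn
  have hn1 : (1 : ℝ) ≤ n := by exact_mod_cast hn
  have hn0 : (0 : ℝ) < n := by linarith
  set l : ℝ := s * (3 * (n : ℝ)) ^ (-(1 + s)) with hl
  have hl0 : 0 < l := by positivity
  have hl1 : l ≤ 1 := mul_le_one₀ hs1 (by positivity)
    (Real.rpow_le_one_of_one_le_of_nonpos (by linarith) (by linarith))
  have e1 := le_err (key hs h0 hβ hM hb hl0 hl1 (fun i hi => a_gap hs hs1 hi) hv)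
  have e2 : (n : ENNReal) ^ ((k : ℝ) / 2) = ENNReal.ofReal ((n : ℝ) ^ ((k : ℝ) / 2)) := by
    rw [← ENNReal.ofReal_rpow_of_pos hn0, ENNReal.ofReal_natCast]
  refine le_trans ?_ (mul_le_mul_left e1 _)
  rw [e2, ← ENNReal.ofReal_mul (by positivity)]
  refine ENNReal.ofReal_le_ofReal ?_
  have e3 : l / 4 = b * (n : ℝ) ^ (-(1 + s)) := by
    rw [hl, hb0, Real.mul_rpow (by norm_num) hn0.le]; ring
  have e4 : ((l / 4) ^ α) ^ k * (l / 2 * ((l / 4) ^ α / 2)) = (l / 4) ^ (γ + 1) := by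
    have h4 : 0 < l / 4 := by positivity
    rw [Real.rpow_add h4, Real.rpow_one, hγ, Real.rpow_mul h4.le,
      Real.rpow_add (by positivity), Real.rpow_one, Real.rpow_natCast]
    ring
  have e5 : (l / 4) ^ (γ + 1) = b ^ (γ + 1) * (n : ℝ) ^ (-(1 + s) * (γ + 1)) := by
    rw [e3, Real.mul_rpow hbp.le (by positivity), ← Real.rpow_mul hn0.le]
  have e6 : (n : ℝ) ^ (δ / 2) ≤ n * (n : ℝ) ^ (-(1 + s) * (γ + 1)) * (n : ℝ) ^ ((k : ℝ) / 2) := by
    have : (n : ℝ) * (n : ℝ) ^ (-(1 + s) * (γ + 1)) * (n : ℝ) ^ ((k : ℝ) / 2) =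
        (n : ℝ) ^ (1 + -(1 + s) * (γ + 1) + (k : ℝ) / 2) := by
      rw [Real.rpow_add hn0, Real.rpow_add hn0, Real.rpow_one]
    rw [this]
    exact Real.rpow_le_rpow_of_exponent_le hn1 (by nlinarith)
  calc M⁻¹ * b ^ (γ + 1) * (n : ℝ) ^ (δ / 2)
      ≤ M⁻¹ * b ^ (γ + 1) *
        (n * (n : ℝ) ^ (-(1 + s) * (γ + 1)) * (n : ℝ) ^ ((k : ℝ) / 2)) := by gcongr
    _ = M⁻¹ * n * (((l / 4) ^ α) ^ k * (l / 2 * ((l / 4) ^ α / 2))) *
        (n : ℝ) ^ ((k : ℝ) / 2) := by rw [e4, e5]; ring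
    _ = _ := by ring

end Pool.Agent.Results.MP_935800_an.Holder
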